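import Mathlib

/-!
# WS-18: the reverse of a separable characteristic polynomial
-/

open Finset Polynomial

namespace Pool.Agent.Helper9.WS

private lemma reverse_map38 {K F : Type} [Field K] [Field F] (f : K →+* F) (p : K[X]) :
    (p.map f).reverse = p.reverse.map f := by
  ext n
  rw [coeff_reverse, coeff_map, coeff_map, coeff_reverse, natDegree_map]

private lemma reverse_prod38 {F : Type} [Field F] [DecidableEq F] (s : Finset F)
    (hs : ∀ a ∈ s, a ≠ 0) :
    (∏ a ∈ s, (X - C a)).reverse = C (∏ a ∈ s, (-a)) * ∏ a ∈ s, (X - C a⁻¹) := by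
  induction s using Finset.induction_on with
  | empty =>
    have h1 : (1 : F[X]).reverse = 1 := by
      rw [← C_1, reverse_C]
    simp [h1]
  | insert a s ha ih =>
    rw [prod_insert ha, prod_insert ha, prod_insert ha, reverse_mul_of_domain,
      ih (fun b hb => hs b (mem_insert_of_mem hb))]
    have h0 : a ≠ 0 := hs a (mem_insert_self a s)
    have h1 : (X - C a : F[X]).reverse = C (-a) * (X - C a⁻¹) := by
      have h2 : (X - C a : F[X]) = C 1 * X + C (-a) := by
        rw [C_neg, C_1]; ring
      ext n
      rw [coeff_reverse, natDegree_X_sub_C]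
      have h3 : (C (-a) * (X - C a⁻¹) : F[X]) = C (-a) * X + C 1 := by
        rw [mul_sub, ← C_mul]
        have : -a * a⁻¹ = -1 := by rw [neg_mul, mul_inv_cancel₀ h0]
        rw [this, C_neg, C_neg, C_1]
        ring
      rw [h3]
      rcases n with _ | _ | n
      · rw [revAt_le (by omega)]
        simp [coeff_X, coeff_one]
      · rw [revAt_le (by omega)]
        simp [coeff_X, coeff_one]
      · have h4 : revAt 1 (n + 2) = n + 2 := by
          rw [revAt_eq_self_of_lt (by omega)]
        show (X - C a).coeff (revAt 1 (n + 2)) = _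
        rw [h4]
        simp [coeff_X, coeff_one]
    rw [h1, C_mul]
    ring

theorem sep_rev {K I : Type} [Field K] [Fintype I] [DecidableEq I] {M : Matrix I I K}
    (hd : M.det ≠ 0) (hs : M.charpoly.Separable) :
    M.charpolyRev.Separable ∧ M.charpolyRev.natDegree = Fintype.card I := by
  classical
  have h0 : M.charpoly.coeff 0 ≠ 0 := by
    intro h
    apply hd
    rw [Matrix.det_eq_sign_charpoly_coeff, h, mul_zero]
  rw [← Matrix.reverse_charpoly]
  constructor
  · set F := AlgebraicClosure K
    let f : K →+* F := algebraMap K F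
    rw [← separable_map f, ← reverse_map38]
    set P : F[X] := M.charpoly.map f with hP
    have hPs : P.Separable := (separable_map f).2 hs
    have hPm : P.Monic := (M.charpoly_monic).map f
    have hsp : P.Splits := IsAlgClosed.splits P
    have hnd : P.roots.Nodup := nodup_roots hPs
    have hprod : P = ∏ a ∈ P.roots.toFinset, (X - C a) := by
      have h1 := hsp.eq_prod_roots_of_monic hPm
      conv_lhs => rw [h1]
      rw [Finset.prod, Multiset.toFinset_val, hnd.dedup]
    have hne : ∀ a ∈ P.roots.toFinset, a ≠ 0 := by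
      rintro a ha rfl
      rw [Multiset.mem_toFinset, mem_roots hPm.ne_zero] at ha
      have h2 : P.coeff 0 = 0 := by rw [coeff_zero_eq_eval_zero]; exact ha
      rw [hP, coeff_map, map_eq_zero] at h2
      exact h0 h2
    rw [hprod, reverse_prod38 _ hne]
    have h3 : (∏ a ∈ P.roots.toFinset, (X - C a⁻¹ : F[X])).Separable := by
      rw [separable_prod_X_sub_C_iff']
      intro x _ y _ hxy
      exact inv_injective hxy
    refine h3.of_dvd ?_
    have h4 : IsUnit (C (∏ a ∈ P.roots.toFinset, (-a)) : F[X]) := by
      rw [isUnit_C, isUnit_iff_ne_zero]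
      exact prod_ne_zero_iff.2 (fun a ha => neg_ne_zero.2 (hne a ha))
    exact (h4.mul_left_dvd).2 dvd_rfl
  · rw [reverse_natDegree, Matrix.charpoly_natDegree_eq_dim,
      natTrailingDegree_eq_zero.2 (Or.inr h0), Nat.sub_zero]

end Pool.Agent.Helper9.WS
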