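import Pool.Agent.Helper9.WS.Defs

/-!
# WS-6b: the sum of a polynomial over the Teichmüller points
-/

open MvPolynomial Finset

namespace Pool.Agent.Helper9.WS

private theorem sum_teich38 {p : ℕ} {κ L : Type} [Field κ] [Field L] (Φ : Frame p κ L)
    {K : Type} [Field K] [Fintype K] (ι : K →+* κ) (N : ℕ) :
    ∑ x : K, Φ.T (ι x) ^ N = if N = 0 then (Fintype.card K : L) else
      if (Fintype.card K - 1) ∣ N then ((Fintype.card K - 1 : ℕ) : L) else 0 := by
  classical
  rcases Nat.eq_zero_or_pos N with rfl | hN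
  · simp
  · rw [if_neg hN.ne']
    have h1 : ∑ x : K, Φ.T (ι x) ^ N = ∑ u : Kˣ, Φ.T (ι (u : K)) ^ N := by
      rw [← Finset.sum_erase_add (s := (univ : Finset K)) (a := 0) _ (mem_univ _)]
      have h0 : Φ.T (ι 0) ^ N = 0 := by
        rw [map_zero, map_zero, zero_pow hN.ne']
      rw [h0, add_zero]
      symm
      apply Finset.sum_bij (fun (u : Kˣ) _ => (u : K))
      · intro u _
        simp
      · intro u _ v _ h
        exact Units.ext h
      · intro x hx
        refine ⟨Units.mk0 x (ne_of_mem_erase hx), mem_univ _, rfl⟩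
      · intro u _
        rfl
    rw [h1]
    let φ : Kˣ →* L :=
      { toFun := fun u => Φ.T (ι (u : K)) ^ N
        map_one' := by simp
        map_mul' := fun u v => by simp [mul_pow] }
    have h2 : ∑ u : Kˣ, Φ.T (ι (u : K)) ^ N = ∑ u : Kˣ, φ u := rfl
    rw [h2, sum_hom_units φ]
    have h3 : φ = 1 ↔ (Fintype.card K - 1) ∣ N := by
      rw [← FiniteField.forall_pow_eq_one_iff]
      constructor
      · intro h x
        have h4 : Φ.T (ι (x : K)) ^ N = 1 := by
          have := DFunLike.congr_fun h x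
          simpa [φ] using this
        have h5 : Φ.T (ι ((x : K) ^ N)) = Φ.T (ι 1) := by
          rw [map_pow, map_pow, h4, map_one, map_one]
        have h6 := ι.injective (Φ.T_inj h5)
        apply Units.ext
        simpa using h6
      · intro h
        ext u
        have h4 : (u : K) ^ N = 1 := by
          have := congrArg (fun v : Kˣ => (v : K)) (h u)
          simpa using this
        show Φ.T (ι (u : K)) ^ N = 1
        rw [← map_pow, ← map_pow, h4, map_one, map_one]
    by_cases h7 : (Fintype.card K - 1) ∣ N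
    · rw [if_pos h7, if_pos (h3.2 h7), Fintype.card_units]
    · rw [if_neg h7, if_neg (fun h => h7 (h3.1 h)), Nat.cast_zero]

section

variable {p : ℕ} [Fact p.Prime] {κ L : Type} [Field κ] [CharP κ p] [Field L] [CharZero L]
  (Φ : Frame p κ L) {n : ℕ} {k : Type} [Field k] [Algebra k κ]

theorem sum_eval (c : Fin n → ℕ) (hc : ∀ j, c j < p - 1) {K : Type} [Field K] [Fintype K]
    (ι : K →+* κ) {r : ℕ} (hr : Fintype.card K = p ^ r) (C : (Fin n →₀ ℕ) → Prop) (B : ℕ)
    (P : MvPolynomial (Fin n) L) (hC : ∀ N ∈ P.support, ∀ U : Fin n →₀ ℕ,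
      N = ((p ^ r - 1) / (p - 1)) • U → C U)
    (hB : ∀ N ∈ P.support, ∀ j, N j ≤ ((p ^ r - 1) / (p - 1)) * B) :
    ∑ x : Fin n → K, (∏ j, Φ.T (ι (x j)) ^ (c j * ((Fintype.card K - 1) / (p - 1)))) *
        eval (fun j => Φ.T (ι (x j))) P =
      ∑ Z : Finset (Fin n), ((p : L) ^ r - 1) ^ (n - Z.card) * ((p : L) ^ r) ^ Z.card *
        ∑ U : Idx p c C B Z, P.coeff (((p ^ r - 1) / (p - 1)) • U.vec) := by
  classical
  have hp : 1 < p := (Fact.out : p.Prime).one_lt
  set R : ℕ := (p ^ r - 1) / (p - 1) with hR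
  have hr0 : r ≠ 0 := by
    rintro rfl
    have h1 : 1 < Fintype.card K := Fintype.one_lt_card
    rw [hr, pow_zero] at h1
    exact lt_irrefl _ h1
  have hdvd : (p - 1) ∣ p ^ r - 1 := by
    have := Nat.sub_dvd_pow_sub_pow p 1 r
    simpa using this
  have hRm : (p - 1) * R = p ^ r - 1 := Nat.mul_div_cancel' hdvd
  have hpr : 1 < p ^ r := Nat.one_lt_pow hr0 hp
  have hR0 : 0 < R := by
    rcases Nat.eq_zero_or_pos R with h | h
    · rw [h, mul_zero] at hRm
      omega
    · exact h
  have hcast : ((p ^ r - 1 : ℕ) : L) = (p : L) ^ r - 1 := by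
    rw [Nat.cast_sub hpr.le]
    push_cast
    rfl
  -- the weight of one exponent
  let S : ℕ → L := fun m => if m = 0 then ((p ^ r : ℕ) : L) else
    if (p ^ r - 1) ∣ m then ((p ^ r - 1 : ℕ) : L) else 0
  let F : (Fin n →₀ ℕ) → L := fun N => P.coeff N * ∏ j, S (c j * R + N j)
  -- the left side
  have hL : ∑ x : Fin n → K, (∏ j, Φ.T (ι (x j)) ^ (c j * ((Fintype.card K - 1) / (p - 1)))) *
        eval (fun j => Φ.T (ι (x j))) P = ∑ N ∈ P.support, F N := by
    rw [hr]
    have h1 : ∀ x : Fin n → K, (∏ j, Φ.T (ι (x j)) ^ (c j * ((p ^ r - 1) / (p - 1)))) *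
        eval (fun j => Φ.T (ι (x j))) P =
        ∑ N ∈ P.support, P.coeff N * ∏ j, Φ.T (ι (x j)) ^ (c j * R + N j) := by
      intro x
      rw [eval_eq', mul_sum]
      apply sum_congr rfl
      intro N _
      have h2 : ∏ j, Φ.T (ι (x j)) ^ (c j * R + N j) =
          (∏ j, Φ.T (ι (x j)) ^ (c j * R)) * ∏ j, Φ.T (ι (x j)) ^ (N j) := by
        rw [← prod_mul_distrib]
        apply prod_congr rfl
        intro j _
        rw [pow_add]
      rw [h2, ← hR]
      ring
    rw [sum_congr rfl fun x _ => h1 x, sum_comm]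
    apply sum_congr rfl
    intro N _
    rw [← mul_sum]
    show _ = P.coeff N * ∏ j, S (c j * R + N j)
    congr 1
    have h3 : ∀ m, S m = ∑ y : K, Φ.T (ι y) ^ m := by
      intro m
      rw [sum_teich38 Φ ι m, hr]
    rw [prod_congr rfl fun j _ => h3 (c j * R + N j), prod_univ_sum, Fintype.piFinset_univ]
  rw [hL]
  -- the index set
  let g : (Σ Z : Finset (Fin n), Idx p c C B Z) → (Fin n →₀ ℕ) := fun s => R • s.2.vec
  have hg : ∀ (s : Σ Z : Finset (Fin n), Idx p c C B Z) (j : Fin n),
      g s j = R * (s.2.1 j : ℕ) := by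
    intro s j
    show (R • s.2.vec) j = _
    rw [Finsupp.smul_apply, smul_eq_mul]
    rfl
  have hinj : Function.Injective g := by
    rintro ⟨Z, U⟩ ⟨Z', U'⟩ h
    have h1 : ∀ j, (U.1 j : ℕ) = (U'.1 j : ℕ) := by
      intro j
      have h2 := DFunLike.congr_fun h j
      rw [hg, hg] at h2
      exact Nat.eq_of_mul_eq_mul_left hR0 h2
    have hZ : Z = Z' := by
      ext j
      rw [(U.2.1 j).1, (U'.2.1 j).1, h1 j]
    subst hZ
    have h3 : U = U' := by
      apply Subtype.ext
      funext j
      exact Fin.ext (h1 j)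
    rw [h3]
  -- the product at an index
  have hprod : ∀ s : Σ Z : Finset (Fin n), Idx p c C B Z,
      ∏ j, S (c j * R + g s j) =
        ((p : L) ^ r - 1) ^ (n - s.1.card) * ((p : L) ^ r) ^ s.1.card := by
    rintro ⟨Z, U⟩
    have h1 : ∀ j, S (c j * R + g ⟨Z, U⟩ j) =
        if j ∈ Z then (p : L) ^ r else (p : L) ^ r - 1 := by
      intro j
      rw [hg]
      have h2 := (U.2.1 j).1
      have h3 := (U.2.1 j).2
      by_cases hj : j ∈ Z
      · rw [if_pos hj]
        have h4 : (U.1 j : ℕ) = 0 := h2.1 hj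
        have h5 : c j = 0 := by
          rw [h4, zero_add] at h3
          exact Nat.eq_zero_of_dvd_of_lt h3 (hc j)
        show (if c j * R + R * (U.1 j : ℕ) = 0 then ((p ^ r : ℕ) : L) else _) = _
        rw [if_pos (by rw [h4, h5]; simp)]
        push_cast
        rfl
      · rw [if_neg hj]
        have h4 : (U.1 j : ℕ) ≠ 0 := fun h => hj (h2.2 h)
        show (if c j * R + R * (U.1 j : ℕ) = 0 then ((p ^ r : ℕ) : L) else
          if (p ^ r - 1) ∣ c j * R + R * (U.1 j : ℕ) then ((p ^ r - 1 : ℕ) : L) else 0) = _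
        have h5 : c j * R + R * (U.1 j : ℕ) ≠ 0 := by
          have : 0 < R * (U.1 j : ℕ) := Nat.mul_pos hR0 (Nat.pos_of_ne_zero h4)
          omega
        have h6 : (p ^ r - 1) ∣ c j * R + R * (U.1 j : ℕ) := by
          obtain ⟨m, hm⟩ := h3
          refine ⟨m, ?_⟩
          calc c j * R + R * (U.1 j : ℕ) = ((U.1 j : ℕ) + c j) * R := by ring
            _ = (p - 1) * R * m := by rw [hm]; ring
            _ = (p ^ r - 1) * m := by rw [hRm]
        rw [if_neg h5, if_pos h6, hcast]
    rw [prod_congr rfl fun j _ => h1 j, prod_ite, prod_const, prod_const]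
    have h7 : (univ.filter fun j : Fin n => j ∈ Z) = Z := by
      ext j
      simp
    have h8 : (univ.filter fun j : Fin n => j ∉ Z).card = n - Z.card := by
      have h9 : (univ.filter fun j : Fin n => j ∉ Z) = Zᶜ := by
        ext j
        simp
      rw [h9, card_compl, Fintype.card_fin]
    rw [h7, h8]
    ring
  -- the right side
  have hRt : ∑ Z : Finset (Fin n), ((p : L) ^ r - 1) ^ (n - Z.card) * ((p : L) ^ r) ^ Z.card *
        ∑ U : Idx p c C B Z, P.coeff (R • U.vec) =
      ∑ s : (Σ Z : Finset (Fin n), Idx p c C B Z), F (g s) := by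
    rw [Fintype.sum_sigma]
    apply sum_congr rfl
    intro Z _
    rw [mul_sum]
    apply sum_congr rfl
    intro U _
    show _ = P.coeff (g ⟨Z, U⟩) * ∏ j, S (c j * R + g ⟨Z, U⟩ j)
    rw [hprod ⟨Z, U⟩]
    show _ = P.coeff (R • U.vec) * _
    ring
  rw [hRt]
  have hsub : ∑ N ∈ P.support, F N = ∑ N ∈ P.support ∪ univ.image g, F N := by
    apply sum_subset subset_union_left
    intro N _ hN
    show P.coeff N * _ = 0
    rw [notMem_support_iff.1 hN, zero_mul]
  rw [hsub]
  symm
  apply sum_of_injOn g hinj.injOn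
  · intro s _
    exact mem_coe.2 (mem_union_right _ (mem_image_of_mem _ (mem_univ _)))
  · intro N hN hN'
    show P.coeff N * ∏ j, S (c j * R + N j) = 0
    by_cases hs : N ∈ P.support
    · rw [mul_eq_zero]
      right
      by_contra hne
      have h1 : ∀ j, S (c j * R + N j) ≠ 0 := fun j h =>
        hne (prod_eq_zero (mem_univ j) h)
      have h2 : ∀ j, (p ^ r - 1) ∣ c j * R + N j := by
        intro j
        by_contra h
        apply h1 j
        show (if c j * R + N j = 0 then ((p ^ r : ℕ) : L) else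
          if (p ^ r - 1) ∣ c j * R + N j then ((p ^ r - 1 : ℕ) : L) else 0) = 0
        have h3 : c j * R + N j ≠ 0 := by
          intro h4
          rw [h4] at h
          exact h (dvd_zero _)
        rw [if_neg h3, if_neg h]
      have h3 : ∀ j, R ∣ N j := by
        intro j
        have h4 : R ∣ c j * R + N j := dvd_trans ⟨p - 1, by rw [mul_comm, hRm]⟩ (h2 j)
        exact (Nat.dvd_add_right (Dvd.intro_left _ rfl)).1 h4
      choose u hu using h3
      have h4 : ∀ j, (p - 1) ∣ u j + c j := by
        intro j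
        have h5 := h2 j
        rw [hu j, ← hRm] at h5
        have h6 : R * (p - 1) ∣ R * (u j + c j) := by
          have h7 : R * (u j + c j) = c j * R + R * u j := by ring
          rw [h7, mul_comm R (p - 1)]
          exact h5
        exact Nat.dvd_of_mul_dvd_mul_left hR0 h6
      have h5 : ∀ j, u j ≤ B := by
        intro j
        have h6 := hB N hs j
        rw [hu j] at h6
        exact Nat.le_of_mul_le_mul_left h6 hR0
      have h6 : N = R • (Finsupp.equivFunOnFinite.symm u) := by
        ext j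
        rw [Finsupp.smul_apply, smul_eq_mul, hu j]
        rfl
      have h7 := hC N hs _ h6
      apply hN'
      let V : Fin n → Fin (B + 1) := fun j => ⟨u j, Nat.lt_succ_of_le (h5 j)⟩
      refine ⟨⟨univ.filter fun j => u j = 0, ⟨V, fun j => ⟨?_, h4 j⟩, h7⟩⟩, mem_coe.2 (mem_univ _), ?_⟩
      · simp [V]
      · rw [h6]
        rfl
    · rw [notMem_support_iff.1 hs, zero_mul]
  · intro s _
    rfl

end

end Pool.Agent.Helper9.WS
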